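import Mathlib
import Pool.Agent.H69.AMU.Quantum

set_option autoImplicit false

namespace Pool.Agent.Results.MP_f2e6dc_gt.DerivedSubgroup

open Pool.Agent.H69.AMU Matrix

/-- Let `β` lie in the derived subgroup of the pure braid group. If `β` acts non-trivially on the
space `V(S^2; k, ..., k, c)` at one level `r₁ ≥ n k + 2`, then at all sufficiently large levels,
for every choice of `A`, no positive power of `β` acts on this space as a scalar. -/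
theorem result (n k c : ℕ) (hk : 0 < k) (β : BraidGroup n)
    (hβ : β ∈ ⁅pureBraid n, pureBraid n⁆)
    (r₁ : ℕ) (hr₁ : n * k + 2 ≤ r₁) (hr₁' : 2 ≤ r₁) (A₁ : ℂ) (hA₁ : IsPrimitiveRoot (A₁ ^ 4) r₁)
    (hne : ∃ v ∈ quantumSpace n k c r₁ A₁, (quantumRep n k c r₁ hk hr₁' A₁ hA₁ β).val *ᵥ v ≠ v) :
    ∃ r₀ : ℕ, ∀ (r : ℕ) (hr : 2 ≤ r) (A : ℂ) (hA : IsPrimitiveRoot (A ^ 4) r), r₀ ≤ r →
      ∀ m : ℕ, 0 < m → ∀ a : ℂ, ∃ v ∈ quantumSpace n k c r A,
        (quantumRep n k c r hk hr A hA β).val ^ m *ᵥ v ≠ a • v :=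
  derived_dichotomy n k c hk β hβ r₁ hr₁ hr₁' A₁ hA₁ hne

end Pool.Agent.Results.MP_f2e6dc_gt.DerivedSubgroup
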