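import Mathlib
import Pool.Agent.H69.AMU.OneLevel

set_option autoImplicit false

namespace Pool.Agent.Results.MP_f2e6dc_gt.Dichotomy

open Pool.Agent.H69.AMU Matrix

/-- Let `β` be a braid on `n` strands whose permutation has order `s`. Either no positive power of
`β` acts as a scalar on `V(S^2; k, ..., k, c)` at all sufficiently large levels, or `β ^ (4 r s)`
acts as the identity on it at every level `r ≥ n k + 2`. -/
theorem result (n k c : ℕ) (hk : 0 < k) (β : BraidGroup n) :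
    (∃ r₀ : ℕ, ∀ (r : ℕ) (hr : 2 ≤ r) (A : ℂ) (hA : IsPrimitiveRoot (A ^ 4) r), r₀ ≤ r →
      ∀ m : ℕ, 0 < m → ∀ a : ℂ, ∃ v ∈ quantumSpace n k c r A,
        (quantumRep n k c r hk hr A hA β).val ^ m *ᵥ v ≠ a • v) ∨
    (∀ (r : ℕ) (hr : 2 ≤ r) (A : ℂ) (hA : IsPrimitiveRoot (A ^ 4) r), n * k + 2 ≤ r →
      ∀ v ∈ quantumSpace n k c r A,
        (quantumRep n k c r hk hr A hA β).val ^ (4 * r * orderOf (permHom n β)) *ᵥ v = v) :=
  dichotomy n k c hk β

end Pool.Agent.Results.MP_f2e6dc_gt.Dichotomy
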