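import Mathlib
import Pool.Agent.H69.AMM.GenusZero

set_option autoImplicit false

namespace Pool.Agent.Results.MP_f2e6dc_gt.GenusZero

open Pool.Agent.H69.AMU Matrix

/-- **The AMU conjecture in genus zero.** Let `b` be a pure braid on `n ≥ 3` strands, viewed as a
mapping class of the sphere with `n + 1` holes, which does not preserve any essential simple closed
curve. Then there are even colours `k 0, ..., k (n-1) > 0` (with sum `N`) and `c` (equal to `N - 2`
or `N - 4`) of the holes such that at all sufficiently large levels `r`, for every `A` with `A ^ 4`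
a primitive `r`-th root of unity, no positive power of `b` acts as a scalar on the space
`V_r(S^2; k 0, ..., k (n-1), c)`. -/
theorem result (n : ℕ) (hn : 3 ≤ n) (b : pureBraid n) (hb : ¬ Reducible (b : BraidGroup n)) :
    ∃ (N : ℕ) (k : ColVec n N) (c : ℕ), (∀ i, 0 < k.1 i ∧ Even (k.1 i)) ∧ Even c ∧
      (c + 2 = N ∨ c + 4 = N) ∧
      ∃ r₀ : ℕ, ∀ (r : ℕ) (hr : 2 ≤ r) (A : ℂ) (hA : IsPrimitiveRoot (A ^ 4) r), r₀ ≤ r →
        ∀ m : ℕ, 0 < m → ∀ a : ℂ, ∃ v ∈ mixedSpace k c r A,
          (mixedRep k c r hr A hA b).val ^ m *ᵥ v ≠ a • v :=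
  genus_zero hn b hb

end Pool.Agent.Results.MP_f2e6dc_gt.GenusZero
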