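import Mathlib
import Pool.Agent.H61.AMU.Criterion

set_option autoImplicit false

namespace Pool.Agent.Results.MP_f2e6dc_gt.SpectralCriterion

open Pool.Agent.H69.AMU Pool.Agent.H61.AMU Matrix

/-- Let `β` be a braid on `n` strands with `β ^ s` pure. No positive power of `β` acts as a scalar
on `V(S^2; k, ..., k, c)` at all sufficiently large levels if and only if the eigenvalues of
`β ^ s` on this space at a generic parameter `A` are not fixed integer powers of `A`. -/
theorem result (n k c : ℕ) (hn : 0 < n) (hk : 0 < k) (β : BraidGroup n) (s : ℕ) (hs : 0 < s)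
    (hpure : β ^ s ∈ pureBraid n) :
    (∃ r₀ : ℕ, ∀ (r : ℕ) (hr : 2 ≤ r) (A : ℂ) (hA : IsPrimitiveRoot (A ^ 4) r), r₀ ≤ r →
      ∀ m : ℕ, 0 < m → ∀ a : ℂ, ∃ v ∈ quantumSpace n k c r A,
        (quantumRep n k c r hk hr A hA β).val ^ m *ᵥ v ≠ a • v) ↔
    ¬ ∃ μ : Multiset ℤ, ∀ (A : ℂ) (hA : Admissible (n * k) (n * k) A) (m : ℕ),
      genTrace n k c hk A hA (β ^ s) m = (μ.map fun h => A ^ ((m : ℤ) * h)).sum :=
  spectral_criterion n k c hn hk β s hs hpure

end Pool.Agent.Results.MP_f2e6dc_gt.SpectralCriterion
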